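import Pool.Agent.EVF.StmtsS

/-!
# Squad EVF, row RDB: reducedness in a family over the projective line
-/

set_option autoImplicit false

noncomputable section

namespace Pool.Agent.EVF.H48

open MvPolynomial Matrix Pool.Agent.EVF

/-- `ev` as a ring homomorphism -/
def evH {k : ℕ} {Ω : Type} [CommRing Ω] (t : Fin k → Ω) (z : Fin 2 → Ω) :
    MvPolynomial (Fin 2) (MvPolynomial (Fin k) ℤ) →+* Ω :=
  eval₂Hom (aeval t : MvPolynomial (Fin k) ℤ →ₐ[ℤ] Ω).toRingHom z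

theorem ev_det {k r : ℕ} {Ω : Type} [CommRing Ω] (M : FMat k r) (t : Fin k → Ω) (z : Fin 2 → Ω) :
    ev M.det t z = (Matrix.of fun i j => ev (M i j) t z).det :=
  RingHom.map_det (evH t z) M

theorem ev_scale {Ω : Type} [CommRing Ω] {W α β c : ℕ}
    (G : MvPolynomial (Fin 2) (MvPolynomial (Fin 2) ℤ))
    (h : ∀ e ∈ G.support, ∀ a ∈ (coeff e G).support, W * (a 0 + a 1) + α * e 0 + β * e 1 = c)
    (μ : Ω) (t : Fin 2 → Ω) (x y : Ω) :
    ev G (fun l => μ ^ W * t l) ![μ ^ α * x, μ ^ β * y] = μ ^ c * ev G t ![x, y] := by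
  unfold ev
  rw [eval₂_eq', eval₂_eq', Finset.mul_sum]
  refine Finset.sum_congr rfl fun e he => ?_
  show aeval (fun l => μ ^ W * t l) (coeff e G) * ∏ i, (![μ ^ α * x, μ ^ β * y] : Fin 2 → Ω) i ^ e i =
    μ ^ c * (aeval t (coeff e G) * ∏ i, (![x, y] : Fin 2 → Ω) i ^ e i)
  rw [aeval_def, aeval_def, eval₂_eq', eval₂_eq', Finset.sum_mul, Finset.sum_mul, Finset.mul_sum]
  refine Finset.sum_congr rfl fun a ha => ?_
  rw [← h e he a ha]
  simp only [Fin.prod_univ_two, Matrix.cons_val_zero, Matrix.cons_val_one]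
  ring

theorem det_scale {Ω : Type} [CommRing Ω] {r : ℕ} {s : Shape r} {W : ℕ} {M : FMat 2 r}
    (hM : FamHom s W M) (μ : Ω) (t : Fin 2 → Ω) (x y : Ω) :
    ev M.det (fun l => μ ^ W * t l) ![μ ^ s.α * x, μ ^ s.β * y] =
      (∏ i, μ ^ s.m i) * ((∏ i, μ ^ s.m i) * ev M.det t ![x, y]) := by
  rw [ev_det, ev_det, ← Matrix.det_mul_row, ← Matrix.det_mul_column]
  refine congrArg Matrix.det ?_
  ext i j
  simp only [Matrix.of_apply]
  rw [ev_scale (M i j) (fun e he a ha => hM i j e he a ha), pow_add]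
  ring

theorem red_scale {r : ℕ} {s : Shape r} {W : ℕ} {M : FMat 2 r} (hM : FamHom s W M) {μ : ℂ}
    (hμ : μ ≠ 0) {t : Fin 2 → ℂ} (h : RedAt s M t) : RedAt s M (fun l => μ ^ W * t l) := by
  obtain ⟨x, hx⟩ := h
  refine ⟨μ ^ s.α * x, ?_⟩
  have hb : μ ^ s.β ≠ 0 := pow_ne_zero _ hμ
  have hp : (∏ i, μ ^ s.m i) ≠ 0 := Finset.prod_ne_zero_iff.2 fun i _ => pow_ne_zero _ hμ
  rw [← hx]
  refine Eq.trans (congrArg Set.ncard ?_)
    (Set.ncard_image_of_injective _ (mul_right_injective₀ hb))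
  ext y
  constructor
  · intro hy
    replace hy : ev M.det (fun l => μ ^ W * t l) ![μ ^ s.α * x, y] = 0 := hy
    refine ⟨(μ ^ s.β)⁻¹ * y, ?_, mul_inv_cancel_left₀ hb y⟩
    have h1 := det_scale hM μ t x ((μ ^ s.β)⁻¹ * y)
    rw [mul_inv_cancel_left₀ hb, hy] at h1
    exact (mul_eq_zero.1 (mul_eq_zero.1 h1.symm |>.resolve_left hp)).resolve_left hp
  · rintro ⟨y', hy', rfl⟩
    replace hy' : ev M.det t ![x, y'] = 0 := hy'
    show ev M.det (fun l => μ ^ W * t l) ![μ ^ s.α * x, μ ^ s.β * y'] = 0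
    rw [det_scale hM μ t x y', hy', mul_zero, mul_zero]

theorem aeval_hom {n : ℕ} {φ : MvPolynomial (Fin 2) ℤ} (hφ : φ.IsHomogeneous n) (lam : ℂ)
    (t : Fin 2 → ℂ) : aeval (fun l => lam * t l) φ = lam ^ n * aeval t φ := by
  rw [aeval_def, aeval_def, eval₂_eq', eval₂_eq', Finset.mul_sum]
  refine Finset.sum_congr rfl fun a ha => ?_
  have h1 : a 0 + a 1 = n := by
    have h2 := hφ (mem_support_iff.1 ha)
    rw [Finsupp.weight_apply] at h2
    rw [← h2, Finsupp.sum_fintype _ _ (fun i => by simp), Fin.sum_univ_two]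
    simp
  rw [← h1]
  simp only [Fin.prod_univ_two]
  ring

theorem aeval_int (φ : MvPolynomial (Fin 2) ℤ) (t : Fin 2 → ℤ) :
    aeval (fun l => ((t l : ℤ) : ℂ)) φ = ((eval t φ : ℤ) : ℂ) := by
  have h : (aeval (fun l => ((t l : ℤ) : ℂ)) : MvPolynomial (Fin 2) ℤ →ₐ[ℤ] ℂ).toRingHom =
      (Int.castRingHom ℂ).comp (eval t) := by
    apply MvPolynomial.ringHom_ext
    · intro n
      show aeval _ (C n) = ((eval t (C n) : ℤ) : ℂ)
      rw [aeval_C, eval_C]
      rfl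
    · intro i
      show aeval _ (X i) = ((eval t (X i) : ℤ) : ℂ)
      rw [aeval_X, eval_X]
  exact congrArg (fun f => f φ) h

theorem comp_zero (ψ : MvPolynomial (Fin 2) ℤ) (t : Fin 2 → ℂ)
    (h : ∀ lam : ℂ, lam ≠ 0 → aeval (fun l => lam * t l) ψ = 0) (n : ℕ) :
    aeval t (homogeneousComponent n ψ) = 0 := by
  obtain ⟨P, hP⟩ : ∃ P : Polynomial ℂ, P = ∑ i ∈ Finset.range (ψ.totalDegree + 1),
      Polynomial.C (aeval t (homogeneousComponent i ψ)) * Polynomial.X ^ i := ⟨_, rfl⟩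
  have hev : ∀ lam : ℂ, P.eval lam = aeval (fun l => lam * t l) ψ := by
    intro lam
    conv_rhs => rw [← sum_homogeneousComponent ψ]
    rw [hP, Polynomial.eval_finsetSum, map_sum]
    refine Finset.sum_congr rfl fun i _ => ?_
    rw [aeval_hom (homogeneousComponent_isHomogeneous i ψ), Polynomial.eval_mul,
      Polynomial.eval_C, Polynomial.eval_pow, Polynomial.eval_X, mul_comm]
  have hP0 : P = 0 := by
    apply Polynomial.eq_zero_of_infinite_isRoot
    refine (Set.finite_singleton (0 : ℂ)).infinite_compl.mono ?_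
    intro lam hlam
    show P.eval lam = 0
    rw [hev, h lam hlam]
  by_cases hn : n ≤ ψ.totalDegree
  · have h1 := congrArg (fun Q => Polynomial.coeff Q n) hP0
    simp only [hP, Polynomial.finsetSum_coeff, Polynomial.coeff_zero, Polynomial.coeff_C_mul,
      Polynomial.coeff_X_pow] at h1
    rw [Finset.sum_eq_single n] at h1
    · rw [if_pos rfl, mul_one] at h1
      exact h1
    · intro i _ hi
      rw [if_neg hi.symm, mul_zero]
    · intro h2
      exact absurd (Finset.mem_range.2 (Nat.lt_succ_of_le hn)) h2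
  · rw [homogeneousComponent_eq_zero _ _ (not_le.1 hn), map_zero]

theorem rdb (hRDC : RdcStmt) (hRDI : RdiStmt) (hFIN : FinStmt) : RdbStmt := by
  intro r s W M hW hs hM hdeg ht₀
  obtain ⟨t₀, ht₀⟩ := ht₀
  obtain ⟨ψ, hψ0, hψ⟩ := hRDC 2 r s M hs hdeg _ ((hRDI 2 r s M t₀).1 ht₀)
  obtain ⟨n, hn⟩ : ∃ n, homogeneousComponent n ψ ≠ 0 := by
    by_contra hcon
    push Not at hcon
    apply hψ0
    rw [← sum_homogeneousComponent ψ]
    exact Finset.sum_eq_zero fun i _ => hcon i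
  refine (hFIN n _ (homogeneousComponent_isHomogeneous n ψ) hn).subset ?_
  rintro t ⟨htc, htr⟩
  refine ⟨htc, ?_⟩
  rw [hRDI] at htr
  have h1 := comp_zero ψ (fun l => ((t l : ℤ) : ℂ)) (fun lam hlam => by
    obtain ⟨μ, hμ⟩ := IsAlgClosed.exists_pow_nat_eq lam (Nat.pos_of_ne_zero (by omega) : 0 < W)
    have hμ0 : μ ≠ 0 := by
      rintro rfl
      rw [zero_pow (by omega)] at hμ
      exact hlam hμ.symm
    by_contra hcon
    apply htr
    have h2 := red_scale hM (inv_ne_zero hμ0) (hψ _ hcon)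
    have h3 : (fun l => μ⁻¹ ^ W * (lam * ((t l : ℤ) : ℂ))) = fun l => ((t l : ℤ) : ℂ) := by
      funext l
      rw [← hμ, ← mul_assoc, ← mul_pow, inv_mul_cancel₀ hμ0, one_pow, one_mul]
    rw [h3] at h2
    exact h2) n
  rw [aeval_int] at h1
  exact_mod_cast h1

end Pool.Agent.EVF.H48
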